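import Mathlib
import Pool.Agent.Helper65.MT.St

set_option autoImplicit false

namespace Pool.Agent.Helper4.MT

open Pool.Agent.Helper65.MT Pool.Agent.Helper16

theorem m_VW : StVW := by
  rintro ⟨X0, hGE⟩
  refine ⟨max X0 (Real.exp (Real.exp 1)), ?_⟩
  intro t ht N hN h250 S hS
  obtain ⟨s, hs⟩ : ∃ s, s = Real.log t := ⟨_, rfl⟩
  obtain ⟨u, hu⟩ : ∃ u, u = Real.log s := ⟨_, rfl⟩
  rw [← hs, ← hu] at h250
  rw [← hs] at hS
  have ht0 : X0 ≤ (t : ℝ) := le_trans (le_max_left _ _) ht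
  have ht1 : Real.exp (Real.exp 1) ≤ (t : ℝ) := le_trans (le_max_right _ _) ht
  have htpos : (0 : ℝ) < t := lt_of_lt_of_le (Real.exp_pos _) ht1
  have hs1 : Real.exp 1 ≤ s := by
    rw [hs, Real.le_log_iff_exp_le htpos]
    exact ht1
  have hspos : 0 < s := lt_of_lt_of_le (Real.exp_pos _) hs1
  have hs1' : 1 ≤ s := by
    have h := Real.add_one_le_exp (1 : ℝ)
    linarith
  have hu1 : 1 ≤ u := by
    rw [hu, Real.le_log_iff_exp_le hspos]
    exact hs1
  have hNR : (2 : ℝ) ≤ N := by exact_mod_cast hN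
  by_contra hcard
  push Not at hcard
  obtain ⟨S', hS'sub, hS'card⟩ := Finset.exists_subset_card_eq hcard
  obtain ⟨n, hn⟩ : ∃ n : Fin N → ℕ, n = fun i => S'.orderEmbOfFin hS'card i := ⟨_, rfl⟩
  have hnmem : ∀ i, n i ∈ S := fun i => by
    rw [hn]
    exact hS'sub (Finset.orderEmbOfFin_mem _ _ _)
  have hmono : StrictMono n := by
    rw [hn]
    exact (S'.orderEmbOfFin hS'card).strictMono
  obtain ⟨W, hW⟩ : ∃ W, W = ⌊s ^ 4⌋₊ := ⟨_, rfl⟩
  have hs4 : 0 ≤ s ^ 4 := by positivity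
  have hWle : (W : ℝ) ≤ s ^ 4 := by
    rw [hW]
    exact Nat.floor_le hs4
  have hnb : ∀ i, t ≤ n i ∧ n i ≤ t + W := by
    intro i
    obtain ⟨h1, h2, _⟩ := hS (n i) (hnmem i)
    refine ⟨h1, ?_⟩
    have h3 : ((n i - t : ℕ) : ℝ) ≤ s ^ 4 := by
      rw [Nat.cast_sub h1]
      linarith
    have h4 : n i - t ≤ W := by
      rw [hW]
      exact Nat.le_floor h3
    omega
  have hdiff : ∀ i j, |(((n i : ℤ)) : ℝ) - ((n j : ℤ) : ℝ)| ≤ (W : ℝ) := by
    intro i j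
    obtain ⟨a1, a2⟩ := hnb i
    obtain ⟨b1, b2⟩ := hnb j
    have a1' : (t : ℝ) ≤ n i := by exact_mod_cast a1
    have b1' : (t : ℝ) ≤ n j := by exact_mod_cast b1
    have a2' : (n i : ℝ) ≤ t + W := by exact_mod_cast a2
    have b2' : (n j : ℝ) ≤ t + W := by exact_mod_cast b2
    rw [abs_le]
    push_cast
    constructor <;> linarith
  have hinj : Function.Injective (fun i => (n i : ℤ)) := by
    intro i j hij
    have h1 : (n i : ℤ) = n j := hij
    have h2 : n i = n j := by exact_mod_cast h1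
    exact hmono.injective h2
  have hN2 : (N : ℝ) ≤ (N : ℝ) ^ 2 := by nlinarith
  have hN2u : (N : ℝ) ^ 2 ≤ (N : ℝ) ^ 2 * u := by nlinarith [sq_nonneg (N : ℝ)]
  have hpairs : 2 * (npairs N : ℝ) ≤ (N : ℝ) ^ 2 := by
    obtain ⟨K, rfl⟩ : ∃ K, N = K + 1 := ⟨N - 1, by omega⟩
    have h1 := two_npairs K
    have h2 : ((2 * npairs (K + 1) : ℕ) : ℝ) = (((K + 1) * K : ℕ) : ℝ) := by rw [h1]
    push_cast at h2 ⊢
    have h3 : (0 : ℝ) ≤ K := Nat.cast_nonneg _
    nlinarith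
  have hV : |((vdm (fun i => (n i : ℤ)) : ℤ) : ℝ)| ≤ Real.exp (2 * (N : ℝ) ^ 2 * u) := by
    have h1 := abs_vdm_le (fun i => (n i : ℤ)) (Y := s ^ 4)
      (fun i j => le_trans (hdiff i j) hWle)
    refine le_trans h1 ?_
    rw [pow_eq_exp (by positivity), Real.log_pow, ← hu]
    apply Real.exp_le_exp.mpr
    push_cast
    nlinarith
  obtain ⟨i, hi⟩ := hGE t ht0 N W hN (by rw [← hs]; nlinarith) (by
      rw [← hs]
      refine le_trans hWle ?_
      calc s ^ 4 = s ^ 4 * 1 := (mul_one _).symm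
        _ ≤ s ^ 4 * s := mul_le_mul_of_nonneg_left hs1' hs4
        _ = s ^ 5 := by ring) n hmono hnb (vdm (fun i => (n i : ℤ))) (2 * (N : ℝ) ^ 2 * u)
    (fun j => dvd_vdm (fun i => (n i : ℤ)) j)
    (fun p hp hWp => not_dvd_vdm (fun i => (n i : ℤ)) hinj hdiff p hp (by exact_mod_cast hWp))
    hV (by positivity) (by rw [← hs]; nlinarith)
  rw [← hs] at hi
  have hlow := (hS (n i) (hnmem i)).2.2
  have hNpos : (0 : ℝ) < N := by linarith
  have hfrac : 2 * (N : ℝ) ^ 2 * u / (N * s) ≤ 1 / (125 * N) := by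
    rw [div_le_div_iff₀ (by positivity) (by positivity)]
    nlinarith
  have h1 : 1 / (N : ℝ) + 2 * (N : ℝ) ^ 2 * u / (N * s) ≤ (126 / 125) / N := by
    have h2 : (126 / 125 : ℝ) / N = 1 / N + 1 / (125 * N) := by
      field_simp
      norm_num
    rw [h2]
    linarith
  have h3 : 30 * (t : ℝ) * (1 / (N : ℝ) + 2 * (N : ℝ) ^ 2 * u / (N * s)) ≤ 31 * t / N := by
    calc 30 * (t : ℝ) * (1 / (N : ℝ) + 2 * (N : ℝ) ^ 2 * u / (N * s))
        ≤ 30 * (t : ℝ) * ((126 / 125) / N) := mul_le_mul_of_nonneg_left h1 (by positivity)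
      _ = (30 * (126 / 125) * t) / N := by ring
      _ ≤ 31 * t / N := by
        apply div_le_div_of_nonneg_right _ hNpos.le
        nlinarith
  linarith

end Pool.Agent.Helper4.MT
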